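import Pool.Agent.Lib.MP_c95dcf_gt.RobustE

/-!
# Least-area splitting surfaces of thin double cones are not graphs
-/

set_option autoImplicit false

open MeasureTheory Set
open scoped ENNReal

namespace Pool.Agent.Results.MP_c95dcf_gt.DoubleConeNotGraph

/-- The double cone `|x| / m + |z| / ε ≤ 1` in `ℝ² × ℝᵐ`, where `x` is the vector of the first two
coordinates and `z` the vector of the last `m` coordinates. -/
def doubleCone (m : ℕ) (ε : ℝ) : Set (EuclideanSpace ℝ (Fin (2 + m))) :=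
  {p | Real.sqrt (∑ i : Fin 2, p (Fin.castAdd m i) ^ 2) / m +
    Real.sqrt (∑ i : Fin m, p (Fin.natAdd 2 i) ^ 2) / ε ≤ 1}

/-- A symmetric convex body. -/
structure IsSymmConvexBody {n : ℕ} (K : Set (EuclideanSpace ℝ (Fin n))) : Prop where
  convex : Convex ℝ K
  compact : IsCompact K
  nonempty_interior : (interior K).Nonempty
  symm : ∀ x, x ∈ K ↔ -x ∈ K

/-- The area of a hypersurface, the Hausdorff measure of dimension `n - 1` (Mathlib's
normalisation). -/
noncomputable def area {n : ℕ} (S : Set (EuclideanSpace ℝ (Fin n))) : ℝ≥0∞ :=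
  Measure.hausdorffMeasure ((n : ℝ) - 1) S

/-- The perimeter of `A` relative to `U` in the sense of De Giorgi: the supremum of the integrals
over `A` of the divergence of the `C¹` vector fields with compact support in `U` and length at
most one. -/
noncomputable def perimeter {n : ℕ} (U A : Set (EuclideanSpace ℝ (Fin n))) : ℝ≥0∞ :=
  ⨆ (X : EuclideanSpace ℝ (Fin n) → EuclideanSpace ℝ (Fin n))
    (_ : ContDiff ℝ 1 X ∧ HasCompactSupport X ∧ tsupport X ⊆ U ∧ ∀ x, ‖X x‖ ≤ 1),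
    ENNReal.ofReal (∫ x in A, ∑ i, (fderiv ℝ X x (EuclideanSpace.single i (1 : ℝ))) i)

/-- `S` is a graph in the direction `e`: every line parallel to `e` meets `S` in at most one
point. -/
def IsGraphIn {n : ℕ} (S : Set (EuclideanSpace ℝ (Fin n))) (e : EuclideanSpace ℝ (Fin n)) : Prop :=
  ∀ x ∈ S, ∀ y ∈ S, (∃ c : ℝ, y = x + c • e) → x = y

/-- The surface between `A` and `K \ A`: the points of the interior of `K` which are in the closure
of both regions. -/
def surface {n : ℕ} (K A : Set (EuclideanSpace ℝ (Fin n))) : Set (EuclideanSpace ℝ (Fin n)) :=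
  interior K ∩ closure A ∩ closure (K \ A)

theorem doubleCone_eq (m : ℕ) (ε : ℝ) :
    doubleCone m ε = Pool.Agent.Lib.MP_c95dcf_gt.Kb m ε := by
  ext p
  have h1 : ‖Pool.Agent.Lib.MP_c95dcf_gt.px p‖ =
      Real.sqrt (∑ i : Fin 2, p (Fin.castAdd m i) ^ 2) := by
    unfold Pool.Agent.Lib.MP_c95dcf_gt.px
    rw [Complex.norm_eq_sqrt_sq_add_sq, Fin.sum_univ_two]
  have h2 : ‖Pool.Agent.Lib.MP_c95dcf_gt.pz p‖ =
      Real.sqrt (∑ i : Fin m, p (Fin.natAdd 2 i) ^ 2) := by
    unfold Pool.Agent.Lib.MP_c95dcf_gt.pz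
    rw [EuclideanSpace.norm_eq]
    simp
  simp only [doubleCone, Pool.Agent.Lib.MP_c95dcf_gt.Kb, Set.mem_ofPred_eq, h1, h2]

theorem perimeter_eq {n : ℕ} (U A : Set (EuclideanSpace ℝ (Fin n))) :
    perimeter U A = Pool.Agent.Lib.MP_c95dcf_gt.Per U A := by
  unfold perimeter Pool.Agent.Lib.MP_c95dcf_gt.Per
  refine iSup_congr fun X => ?_
  refine iSup_congr_Prop ?_ fun _ => rfl
  constructor
  · rintro ⟨h1, h2, h3, h4⟩
    exact ⟨⟨h1, h2, h3⟩, h4⟩
  · rintro ⟨⟨h1, h2, h3⟩, h4⟩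
    exact ⟨h1, h2, h3, h4⟩

theorem surface_eq {n : ℕ} (K A : Set (EuclideanSpace ℝ (Fin n))) :
    surface K A = frontier A ∩ interior K := by
  ext x
  rw [frontier_eq_closure_inter_closure]
  simp only [surface, mem_inter_iff]
  constructor
  · rintro ⟨⟨h1, h2⟩, h3⟩
    exact ⟨⟨h2, closure_mono (fun y hy => hy.2) h3⟩, h1⟩
  · rintro ⟨⟨h2, h3⟩, h1⟩
    refine ⟨⟨h1, h2⟩, ?_⟩
    rw [mem_closure_iff] at h3 ⊢
    intro o ho hxo
    obtain ⟨y, hy, hyA⟩ := h3 (o ∩ interior K) (ho.inter isOpen_interior) ⟨hxo, h1⟩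
    exact ⟨y, hy.1, interior_subset hy.2, hyA⟩

/-- For all large `m` and all small `ε` the double cone `|x| / m + |z| / ε ≤ 1` in `ℝ² × ℝᵐ` is a
symmetric convex body which has, for some proportion `λ < 1 / 4`, a least-area splitting surface
that is not a graph in any direction. -/
theorem result : ∃ m₀ : ℕ, ∀ m : ℕ, m₀ ≤ m → ∃ ε₀ : ℝ, 0 < ε₀ ∧ ∀ ε : ℝ, 0 < ε → ε < ε₀ →
    IsSymmConvexBody (doubleCone m ε) ∧
    ∃ (lam : ℝ) (A : Set (EuclideanSpace ℝ (Fin (2 + m)))),
      0 < lam ∧ lam < 1 / 4 ∧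
      A ⊆ doubleCone m ε ∧ IsClosed A ∧ closure (interior A) = A ∧
      volume A = ENNReal.ofReal lam * volume (doubleCone m ε) ∧
      0 < area (surface (doubleCone m ε) A) ∧ area (surface (doubleCone m ε) A) < ∞ ∧
      perimeter (interior (doubleCone m ε)) A =
        volume (Metric.ball (0 : EuclideanSpace ℝ (Fin (m + 1))) 1) / 2 ^ (m + 1) *
          area (surface (doubleCone m ε) A) ∧
      (∀ B : Set (EuclideanSpace ℝ (Fin (2 + m))), B ⊆ doubleCone m ε → MeasurableSet B →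
        volume B = ENNReal.ofReal lam * volume (doubleCone m ε) →
          area (surface (doubleCone m ε) A) ≤ area (surface (doubleCone m ε) B) ∧
          perimeter (interior (doubleCone m ε)) A ≤ perimeter (interior (doubleCone m ε)) B) ∧
      ∀ e : EuclideanSpace ℝ (Fin (2 + m)), e ≠ 0 →
        ¬ IsGraphIn (surface (doubleCone m ε) A) e := by
  obtain ⟨m₀, hm₀, h⟩ := Pool.Agent.Lib.MP_c95dcf_gt.robust
  refine ⟨m₀, fun m hm => ?_⟩
  obtain ⟨ε₀, hε₀, h⟩ := h m hm
  refine ⟨ε₀, hε₀, fun ε hε hlt => ?_⟩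
  obtain ⟨lam, F, hF⟩ := h ε hε hlt
  have hm1 : 1 ≤ m := by omega
  obtain ⟨hcv, hcp, hint, -, hne, -, -, -, hsym, -, -⟩ :=
    Pool.Agent.Lib.MP_c95dcf_gt.body m ε hm1 hε
  rw [doubleCone_eq]
  have hn : 2 + m - 1 = m + 1 := by omega
  have hper : Pool.Agent.Lib.MP_c95dcf_gt.Per (Pool.Agent.Lib.MP_c95dcf_gt.Ub m ε) F =
      volume (Metric.ball (0 : EuclideanSpace ℝ (Fin (m + 1))) 1) / 2 ^ (m + 1) *
        area (frontier F ∩ Pool.Agent.Lib.MP_c95dcf_gt.Ub m ε) := by
    have := hF.per_eq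
    rw [hn] at this
    exact this
  refine ⟨⟨hcv, hcp, by rw [hint]; exact hne, fun x => ⟨hsym x, fun hx => ?_⟩⟩, lam, F,
    hF.lam_pos, hF.lam_lt, hF.sub, hF.closed, hF.reg, hF.vol, ?_, ?_, ?_, ?_, ?_⟩
  · have := hsym _ hx
    rwa [neg_neg] at this
  · rw [surface_eq, hint, pos_iff_ne_zero]
    intro h0
    rw [h0, mul_zero] at hper
    exact hF.per_pos hper
  · rw [surface_eq, hint, lt_top_iff_ne_top]
    intro h0
    rw [h0, ENNReal.mul_top] at hper
    · exact hF.per_fin hper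
    · exact (ENNReal.div_pos (Metric.measure_ball_pos volume _ one_pos).ne' (by simp)).ne'
  · rw [surface_eq, hint, perimeter_eq]
    exact hper
  · intro B hBK hBm hBv
    refine ⟨?_, ?_⟩
    · rw [surface_eq, surface_eq, hint]
      exact hF.min_haus B hBK hBm hBv
    · rw [perimeter_eq, perimeter_eq, hint]
      exact hF.min_per B hBK hBm hBv
  · intro e he hgr
    obtain ⟨x, hx, y, hy, hxy, hc⟩ := hF.not_graph e he
    rw [surface_eq, hint] at hgr
    exact hxy (hgr x hx y hy hc)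

end Pool.Agent.Results.MP_c95dcf_gt.DoubleConeNotGraph
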